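import Pool.Agent.BC.Stmts
import Pool.Agent.Helper51_BC.Tool

/-!
# BC, module QTY: the bound of the potential by type
-/

set_option autoImplicit false

open Finset

noncomputable section

namespace Pool.Agent.BC.H45

open Pool.Agent.BC Pool.Agent.BC.H51

theorem qty (typ : TypStmt) (jen : JenStmt) : QtyStmt := by
  intro X _ _ p C hp hC hT x hx t θ n c
  refine ciSup_le fun m => ?_
  have hav : ∀ j : ℤ, av1 m (x (n + m)) j = x n j := fun j => (jen X x hx).1 n m j
  have h0 : ∀ l : Fin t, av1 m (fun k => θ l • (x (n + m) k - x n (c l))) (c l) = 0 := by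
    intro l
    rw [av1_smul (θ l) (fun k => x (n + m) k - x n (c l)) (c l),
      av1_sub (fun k => x (n + m) k) (fun _ => x n (c l)) (c l), av1_const]
    have := hav (c l)
    rw [show av1 m (fun k => x (n + m) k) (c l) = x n (c l) from this, sub_self, smul_zero]
  have hb : ∀ (l : Fin t) (k : ℤ), ‖θ l • (x (n + m) k - x n (c l))‖ ≤ 2 * |θ l| := by
    intro l k
    rw [norm_smul, Real.norm_eq_abs]
    have h1 : ‖x (n + m) k - x n (c l)‖ ≤ 2 := by
      have := norm_sub_le (x (n + m) k) (x n (c l))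
      have h2 := hx.1 (n + m) k
      have h3 := hx.1 n (c l)
      linarith
    nlinarith [abs_nonneg (θ l)]
  have h := typ X p C hp hC hT t m (fun l k => θ l • (x (n + m) k - x n (c l))) c
    (fun l => 2 * |θ l|) h0 hb
  have e1 : (fun d : Fin t → ℤ => ‖∑ l, θ l • (x (n + m) (d l) - x n (c l))‖) =
      fun d => ‖J x (n + m) d θ - J x n c θ‖ := by
    funext d
    simp only [J, smul_sub, sum_sub_distrib]
  have e2 : ∀ l : Fin t, (2 : ℝ) * (2 * |θ l|) = 4 * |θ l| := fun l => by ring
  simp only [e2] at h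
  have e3 : av m (fun d : Fin t → ℤ => ‖∑ l, θ l • (x (n + m) (d l) - x n (c l))‖) c =
      av m (fun d => ‖J x (n + m) d θ - J x n c θ‖) c := by rw [e1]
  exact e3 ▸ h

end Pool.Agent.BC.H45
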